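import Mathlib
import Pool.Agent.Y793.Stm2
import Pool.Agent.H391R2.T4.Ari
import Pool.Agent.H81R2.BT.TaskA

/-! ARI: arithmetic assembly for a subgroup of the wreath product (project of helper793). -/

set_option autoImplicit false

namespace Pool.Agent.Y203.J.Ari

open MvPolynomial
open Pool.Agent.H391R2 Pool.Agent.H391R2.T4

theorem t_arith : Pool.Agent.Y793.St_arith := by
  intro K K₀ N _ _ _ _ _ _ _ _ _ _ _ ι _ η hη G _ _ n H₀ r hr vv hvv hR hG
  classical
  have hcK₀ : CharZero K₀ := charZero_of_injective_algebraMap (algebraMap K K₀).injective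
  have hcN : CharZero N := charZero_of_injective_algebraMap (algebraMap K N).injective
  have halgKK₀ : Algebra.IsAlgebraic K K₀ := inferInstance
  have hηK : AlgebraicIndependent K η :=
    AlgebraicIndependent.restrictScalars (K := K₀) (algebraMap K K₀).injective hη.1
  obtain ⟨E, iE1, iE2, iE3, iE4, iE5, ψ, hψ⟩ := exists_field hηK
  let _ : Algebra E N := ψ.toRingHom.toAlgebra
  have hTKEN : IsScalarTower K E N := IsScalarTower.of_algebraMap_eq fun x => (ψ.commutes x).symm
  have hηE : ∀ v, η v = algebraMap E N (algebraMap (MvPolynomial ι K) E (MvPolynomial.X v)) := by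
    intro v
    change _ = ψ _
    rw [hψ, aeval_X]
  have hcE : CharZero E := charZero_of_injective_algebraMap (algebraMap K E).injective
  -- N is algebraic over E
  let S := algebraicClosure E N
  have hK₀S : ∀ a : K₀, algebraMap K₀ N a ∈ S := by
    intro a
    rw [mem_algebraicClosure_iff]
    have h1 : IsAlgebraic K a := halgKK₀.isAlgebraic a
    have h2 : IsAlgebraic K (algebraMap K₀ N a) := h1.algebraMap
    exact h2.tower_top E
  let _ : Algebra K₀ S := ((algebraMap K₀ N).codRestrict S hK₀S).toAlgebra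
  have hTK₀SN : IsScalarTower K₀ S N := IsScalarTower.of_algebraMap_eq fun x => rfl
  have halgSN : Algebra.IsAlgebraic S N := by
    refine alg_of_range (k := K₀) η hη fun v => ⟨⟨η v, ?_⟩, rfl⟩
    rw [hηE]
    exact S.algebraMap_mem _
  have halgEN : Algebra.IsAlgebraic E N := Algebra.IsAlgebraic.trans E S N
  have hnEN : Normal E N := by
    have : IsAlgClosure E N := ⟨inferInstance, halgEN⟩
    exact IsAlgClosure.normal E N
  -- automorphisms over E
  have hσK : ∀ (σ : N ≃ₐ[E] N), ∀ v, σ (η v) = η v := by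
    intro σ v
    rw [hηE, σ.commutes]
  have hEfix : ∀ (j : N →+* N), (∀ a : K, j (algebraMap K N a) = algebraMap K N a) →
      (∀ v, j (η v) = η v) → ∀ x : E, j (algebraMap E N x) = algebraMap E N x := by
    intro j h1 h2 x
    let j' : N →ₐ[K] N := { j with commutes' := h1 }
    exact eq_on_adjoin j' (AlgHom.id K N) (Set.range η) (by
      rintro _ ⟨v, rfl⟩
      exact h2 v) _ (field_le η hηE x)
  have hcoef : ∀ f : K₀ ≃ₐ[K] K₀, ∃ σ : N ≃ₐ[E] N, ∀ a : K₀,
      σ (algebraMap K₀ N a) = algebraMap K₀ N (f a) := by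
    intro f
    obtain ⟨j, hj1, hj2⟩ := lift_twist η hη (f : K₀ →+* K₀)
    have h1 : ∀ x : E, j (algebraMap E N x) = algebraMap E N x := by
      refine hEfix j (fun a => ?_) hj1
      rw [IsScalarTower.algebraMap_apply K K₀ N, hj2]
      congr 1
      exact f.commutes a
    let jE : N →ₐ[E] N := { j with commutes' := h1 }
    refine ⟨AlgEquiv.ofBijective jE (Algebra.IsAlgebraic.algHom_bijective jE), fun a => hj2 a⟩
  -- the relation
  let Rel : (N ≃ₐ[E] N) → Wr G n → Prop := fun σ z =>
    ∀ i, σ (r i) = r (z.right i) ∧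
      ∀ g, σ (vv i g) = vv (z.right i) (z.left (z.right i) * g)
  have hex : ∀ σ, ∃ z : H₀, Rel σ z := by
    intro σ
    obtain ⟨x, hx, hx2⟩ := hR (σ.restrictScalars K) (fun v => hσK σ v)
    exact ⟨⟨x, hx⟩, hx2⟩
  have huniq : ∀ σ z z', Rel σ z → Rel σ z' → z = z' := by
    intro σ z z' hz hz'
    have h1 : z.right = z'.right := by
      apply Equiv.ext
      intro i
      apply hr
      rw [← (hz i).1, (hz' i).1]
    apply SemidirectProduct.ext _ h1
    funext j
    obtain ⟨i, rfl⟩ := z.right.surjective j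
    have h2 := (hz i).2 1
    have h3 := (hz' i).2 1
    rw [h2, mul_one, mul_one, ← h1] at h3
    exact hvv _ h3
  have hmul : ∀ σ σ' z z', Rel σ z → Rel σ' z' → Rel (σ' * σ) (z' * z) := by
    intro σ σ' z z' hz hz'
    refine fun i => ⟨?_, fun g => ?_⟩
    · rw [AlgEquiv.mul_apply, (hz i).1, (hz' _).1]
      rfl
    · rw [AlgEquiv.mul_apply, (hz i).2, (hz' _).2, wr_mul_right, wr_mul_left]
      change _ = vv (z'.right (z.right i)) (z'.left (z'.right (z.right i)) *
        z.left (z'.right⁻¹ (z'.right (z.right i))) * g)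
      have h1 : z'.right⁻¹ (z'.right (z.right i)) = z.right i := by simp
      rw [h1, mul_assoc]
  choose Pf hPf using hex
  let π : (N ≃ₐ[E] N) →* H₀ := MonoidHom.mk' Pf (fun σ' σ =>
    Subtype.ext (huniq _ _ _ (hPf _) (hmul σ σ' _ _ (hPf σ) (hPf σ'))))
  have hπ : ∀ σ, Rel σ (π σ) := hPf
  -- geometric automorphisms
  have hgeo : ∀ x : H₀, ∃ σ : N ≃ₐ[E] N, Rel σ x ∧
      ∀ a : K₀, σ (algebraMap K₀ N a) = algebraMap K₀ N a := by
    intro x
    obtain ⟨σ, hσ1, hσ2⟩ := hG x x.2
    have h1 : ∀ x : E, σ (algebraMap E N x) = algebraMap E N x := by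
      refine hEfix (σ : N →+* N) (fun a => ?_) hσ1
      rw [IsScalarTower.algebraMap_apply K K₀ N]
      exact σ.commutes _
    exact ⟨AlgEquiv.ofRingEquiv (f := σ.toRingEquiv) h1, hσ2, fun a => σ.commutes a⟩
  have hsurj : Function.Surjective π := by
    intro z
    obtain ⟨σ, hσ, -⟩ := hgeo z
    exact ⟨σ, Subtype.ext (huniq _ _ _ (hπ _) hσ)⟩
  -- the field
  let gen : (Fin n ⊕ (Fin n × G)) → N := Sum.elim r (fun p => vv p.1 p.2)
  let M : IntermediateField E N := IntermediateField.adjoin E (Set.range gen)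
  have hMgen : ∀ p, gen p ∈ M := fun p => IntermediateField.subset_adjoin _ _ ⟨p, rfl⟩
  have hMr : ∀ i, r i ∈ M := fun i => hMgen (Sum.inl i)
  have hMv : ∀ i g, vv i g ∈ M := fun i g => hMgen (Sum.inr (i, g))
  have hMfd : FiniteDimensional E M :=
    IntermediateField.finiteDimensional_adjoin fun x _ =>
      (halgEN.isAlgebraic x).isIntegral
  have hMn : Normal E M := by
    rw [IntermediateField.normal_iff_forall_map_le']
    intro σ
    rw [IntermediateField.adjoin_map, IntermediateField.adjoin_le_iff]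
    rintro _ ⟨_, ⟨p, rfl⟩, rfl⟩
    rcases p with i | p
    · change σ (r i) ∈ M
      rw [((hπ σ) i).1]
      exact hMr _
    · change σ (vv p.1 p.2) ∈ M
      rw [((hπ σ) p.1).2]
      exact hMv _ _
  have hMfix : ∀ σ : N ≃ₐ[E] N, π σ = 1 ↔ ∀ x : M, σ x = x := by
    intro σ
    constructor
    · intro h
      have h1 := hπ σ
      rw [h] at h1
      have h2 : M ≤ eqF (σ : N →ₐ[E] N) (AlgHom.id E N) := by
        rw [IntermediateField.adjoin_le_iff]
        rintro _ ⟨p, rfl⟩
        rw [SetLike.mem_coe, mem_eqF]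
        rcases p with i | p
        · exact (h1 i).1
        · change σ (vv p.1 p.2) = vv p.1 p.2
          rw [(h1 p.1).2]
          change vv p.1 (1 * p.2) = vv p.1 p.2
          rw [one_mul]
      exact fun x => h2 x.2
    · intro h
      refine Subtype.ext (huniq _ _ _ (hπ σ) fun i => ⟨h ⟨_, hMr i⟩, fun g => ?_⟩)
      change σ (vv i g) = vv i (1 * g)
      rw [one_mul, h ⟨_, hMv i g⟩]
  have hker : (AlgEquiv.restrictNormalHom (F := E) (K₁ := N) M).ker = π.ker := by
    ext σ
    rw [MonoidHom.mem_ker, MonoidHom.mem_ker, hMfix]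
    constructor
    · intro h x
      have h1 := AlgEquiv.restrictNormal_commutes σ M x
      have h2 : σ.restrictNormal M = 1 := h
      rw [h2] at h1
      exact h1.symm
    · intro h
      apply AlgEquiv.ext
      intro x
      apply Subtype.ext
      have h1 := AlgEquiv.restrictNormal_commutes σ M x
      exact h1.trans (h x)
  obtain ⟨γ, hγ⟩ := exists_equiv_of_ker (AlgEquiv.restrictNormalHom (F := E) (K₁ := N) M) π
    (AlgEquiv.restrictNormalHom_surjective N) hsurj hker
  have hMgal : IsGalois E M := ⟨⟩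
  have hreg : ∀ y : M, IsAlgebraic K y → y ∈ Set.range (algebraMap K M) := by
    intro y hy
    -- y is a constant
    have hyK₀ : ∃ c : K₀, algebraMap K₀ N c = (y : N) := by
      have hTKMN : IsScalarTower K M N := IsScalarTower.of_algebraMap_eq fun x => rfl
      have h1 : IsAlgebraic K (y : N) := hy.algebraMap (A := N)
      have h2 : IsAlgebraic K₀ (y : N) := h1.tower_top K₀
      exact minpoly.mem_range_of_degree_eq_one K₀ (y : N)
        (IsAlgClosed.degree_eq_one_of_irreducible K₀ (minpoly.irreducible h2.isIntegral))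
    obtain ⟨c, hc⟩ := hyK₀
    have hgalL : IsGalois K K₀ := by
      have : IsAlgClosure K K₀ := ⟨inferInstance, inferInstance⟩
      have : Normal K K₀ := IsAlgClosure.normal K K₀
      exact ⟨⟩
    have hcbot : c ∈ (⊥ : IntermediateField K K₀) := by
      rw [InfiniteGalois.mem_bot_iff_fixed]
      intro f
      obtain ⟨σ₀, hσ₀⟩ := hcoef f
      obtain ⟨σ₁, hσ₁, hσ₁K⟩ := hgeo (π σ₀)
      have h3 : π σ₁ = π σ₀ := Subtype.ext (huniq _ _ _ (hπ σ₁) hσ₁)
      have h4 : π (σ₁⁻¹ * σ₀) = 1 := by
        rw [map_mul, map_inv, h3, inv_mul_cancel]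
      have h5 := (hMfix _).1 h4 y
      rw [← hc] at h5
      have h6 : σ₀ (algebraMap K₀ N c) = σ₁ (algebraMap K₀ N c) := by
        have h7 : (σ₁⁻¹ * σ₀) (algebraMap K₀ N c) = σ₁⁻¹ (σ₀ (algebraMap K₀ N c)) := rfl
        rw [h7] at h5
        rw [← h5]
        have h8 : ∀ z, σ₁ (σ₁⁻¹ z) = z := fun z => by
          change (σ₁ * σ₁⁻¹) z = z
          rw [mul_inv_cancel]
          rfl
        rw [h8, h5]
      rw [hσ₀, hσ₁K] at h6
      exact (algebraMap K₀ N).injective h6
    obtain ⟨a, ha⟩ := IntermediateField.mem_bot.1 hcbot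
    refine ⟨a, ?_⟩
    apply Subtype.ext
    change algebraMap K N a = y
    rw [← hc, ← ha, ← IsScalarTower.algebraMap_apply]
  have hfix : ∀ (σ : M ≃ₐ[E] M) (x : K),
      σ (algebraMap K M x) = algebraMap K M (((1 : H₀ →* (K ≃ₐ[K] K)) (γ σ)) x) := by
    intro σ x
    have h1 : algebraMap K M x = algebraMap E M (algebraMap K E x) := by
      apply Subtype.ext
      change algebraMap K N x = algebraMap E N (algebraMap K E x)
      exact IsScalarTower.algebraMap_apply K E N x
    rw [h1, σ.commutes]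
    exact h1.symm
  have hfin : Finite (Wr G n) := finite_wr G n
  have hfin' : Finite H₀ := inferInstance
  exact Pool.Agent.H81R2.BT.taskA K K H₀ 1 ι E M γ hfix hreg

end Pool.Agent.Y203.J.Ari
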