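import Mathlib
import Pool.Agent.Y793.Stm3
import Pool.Agent.Y793.Dg
import Pool.Agent.Y241.WR.Tri
import Pool.Agent.H391R2.T4.Utl

/-! CYC: three-cycle from a triple root (project of helper793). -/

set_option autoImplicit false

namespace Pool.Agent.Y203.J.Cyc

open Polynomial Pool.Agent.Y793

section nat

variable {K ι : Type} [Field K] [Fintype ι] (D : K[X]) (κ g u : ι → K[X])
variable {E : Type} [CommRing E] [Algebra K E] {E' : Type} [CommRing E'] [Algebra K E']

theorem PA_map (φ : E →ₐ[K] E') (v : ι ⊕ Bool → E) (T : E) :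
    (PA D κ g v T).map (φ : E →+* E') = PA D κ g (fun i => φ (v i)) (φ T) := by
  have h1 : (φ : E →+* E').comp (algebraMap K E) = algebraMap K E' := φ.comp_algebraMap
  unfold PA
  simp only [Polynomial.map_add, Polynomial.map_sub, Polynomial.map_mul, map_expand, adr_map,
    gin_map, lin_map, map_C, map_X, Polynomial.map_map, h1, RingHom.coe_coe]

theorem PB_map (φ : E →ₐ[K] E') (v : ι ⊕ Bool → E) :
    (PB D u v).map (φ : E →+* E') = PB D u (fun i => φ (v i)) := by
  have h1 : (φ : E →+* E').comp (algebraMap K E) = algebraMap K E' := φ.comp_algebraMap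
  unfold PB
  simp only [Polynomial.map_add, Polynomial.map_mul, map_expand,
    lin_map, map_C, map_X, Polynomial.map_map, h1, RingHom.coe_coe, map_mul, map_ofNat,
    Polynomial.map_ofNat]

theorem PP_map (φ : E →ₐ[K] E') (v : ι ⊕ Bool → E) (T : E) :
    (PP D κ g u v T).map (φ : E →+* E') = PP D κ g u (fun i => φ (v i)) (φ T) := by
  have h1 : (φ : E →+* E').comp (algebraMap K E) = algebraMap K E' := φ.comp_algebraMap
  unfold PP
  simp only [Polynomial.map_sub, Polynomial.map_mul, Polynomial.map_pow, map_expand, PA_map, PB_map,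
    Polynomial.map_map, h1]

theorem PP_shift (v : ι ⊕ Bool → E) (T t : E) :
    PP D κ g u v (T + t) = PP D κ g u v T - C (2 * t) * PA D κ g v T + C (t ^ 2) := by
  have h1 : PA D κ g v (T + t) = PA D κ g v T - C t := by
    unfold PA
    rw [C_add]
    ring
  unfold PP
  rw [h1, C_mul, C_pow]
  have h2 : (C 2 : E[X]) = 2 := rfl
  rw [h2]
  ring

end nat

theorem rescale_C' {F : Type} [CommRing F] (ω x : F) :
    PowerSeries.rescale ω (PowerSeries.C x) = PowerSeries.C x := by
  ext n
  rw [PowerSeries.coeff_rescale, PowerSeries.coeff_C]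
  split_ifs with h
  · rw [h, pow_zero, one_mul]
  · rw [mul_zero]

theorem rescale_X3 {F : Type} [CommRing F] (ω : F) (hω : ω ^ 3 = 1) :
    PowerSeries.rescale ω (PowerSeries.X ^ 3 : PowerSeries F) = PowerSeries.X ^ 3 := by
  rw [map_pow, PowerSeries.rescale_X, mul_pow, ← map_pow, hω, map_one, one_mul]

/-- a shift of three elements is a three-cycle -/
theorem threeCycle {m : ℕ} (E : Fin (m + 3) ≃ ZMod 3 ⊕ Fin m) (π : Equiv.Perm (Fin (m + 3)))
    (h1 : ∀ i j, E i = Sum.inl j → E (π i) = Sum.inl (j + 1))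
    (h2 : ∀ i l, E i = Sum.inr l → E (π i) = Sum.inr l) : π.IsThreeCycle := by
  classical
  rw [← card_support_eq_three_iff]
  have h3 : π.support = Finset.univ.image (fun j : ZMod 3 => E.symm (Sum.inl j)) := by
    ext i
    rw [Equiv.Perm.mem_support, Finset.mem_image]
    constructor
    · intro h
      rcases hE : E i with j | l
      · exact ⟨j, Finset.mem_univ _, by rw [← hE, Equiv.symm_apply_apply]⟩
      · exact (h (E.injective (by rw [h2 i l hE, hE]))).elim
    · rintro ⟨j, -, hj⟩ h
      have hE : E i = Sum.inl j := by rw [← hj, Equiv.apply_symm_apply]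
      have h4 := h1 i j hE
      rw [h, hE] at h4
      have h5 : j = j + 1 := Sum.inl_injective h4
      have h6 : (1 : ZMod 3) = 0 := by
        have := congrArg (fun x => x - j) h5
        simp only [sub_self, add_sub_cancel_left] at this
        exact this.symm
      exact absurd h6 (by decide)
  rw [h3, Finset.card_image_of_injective, Finset.card_univ, ZMod.card]
  intro a b hab
  exact Sum.inl_injective (E.symm.injective hab)

theorem t_cyc : St_cyc := by
  intro K ι _ _ _ D κ g u k hD hk k₀ N _ _ _ _ _ _ _ _ η hη F _ _ _ _ _ c hc hgam T₁ w₁ m a ha haw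
    hPP hPA r hr hroot
  classical
  have hcF : CharZero F := charZero_of_injective_algebraMap (algebraMap K F).injective
  have hne3 : NeZero (3 : F) := ⟨by norm_num⟩
  obtain ⟨ω, hω⟩ := HasEnoughRootsOfUnity.exists_primitiveRoot F 3
  have hω3 : ω ^ 3 = 1 := hω.pow_eq_one
  obtain ⟨Ω, iΩ, iA, j, τ, hj, hτ, htr⟩ := Pool.Agent.Y241.WR.t_set F ω hω
  -- the polynomial over power series
  set u₀ : F := gam κ k c ^ 2 with hu₀
  have hu₀0 : u₀ ≠ 0 := pow_ne_zero _ hgam
  have hCinj : Function.Injective (PowerSeries.C : F →+* PowerSeries F) := PowerSeries.C_injective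
  obtain ⟨hdA, -⟩ := PA_deg hD hk c T₁ hgam
  obtain ⟨hdP, hlP⟩ := PP_deg hD hk c T₁ hgam
  have hdP' : (PP D κ g u c T₁).natDegree = m + 3 := by
    have hm1 : ((X - C w₁) ^ 3 : F[X]).Monic := (monic_X_sub_C w₁).pow 3
    have hm2 : (∏ i, (X - C (a i))).Monic := monic_prod_of_monic _ _ fun i _ => monic_X_sub_C _
    rw [hPP, natDegree_C_mul hu₀0, hm1.natDegree_mul hm2, (monic_X_sub_C w₁).natDegree_pow,
      natDegree_X_sub_C, natDegree_prod_of_monic _ _ fun i _ => monic_X_sub_C _]
    simp only [natDegree_X_sub_C, Finset.sum_const, Finset.card_univ, Fintype.card_fin,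
      smul_eq_mul, mul_one]
    omega
  set P₁ : (PowerSeries F)[X] := (PP D κ g u c T₁).map PowerSeries.C with hP₁
  set Q₁ : (PowerSeries F)[X] := -(C (2 * PowerSeries.X ^ 3) * (PA D κ g c T₁).map PowerSeries.C) +
    C (PowerSeries.X ^ 6) with hQ₁
  set f : (PowerSeries F)[X] := P₁ + Q₁ with hf
  have hdP₁ : P₁.natDegree = m + 3 := by
    rw [hP₁, natDegree_map_eq_of_injective hCinj, hdP']
  have hdQ₁ : Q₁.natDegree < P₁.natDegree := by
    rw [hdP₁, ← hdP', hdP]
    refine lt_of_le_of_lt (natDegree_add_le _ _) (max_lt ?_ ?_)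
    · rw [natDegree_neg]
      refine lt_of_le_of_lt ((natDegree_C_mul_le _ _).trans natDegree_map_le) ?_
      rw [hdA]
      omega
    · rw [natDegree_C]
      omega
  have hfd : f.natDegree = m + 3 := by
    rw [hf, natDegree_add_eq_left_of_natDegree_lt hdQ₁, hdP₁]
  have hfl : f.leadingCoeff = PowerSeries.C u₀ := by
    rw [hf, leadingCoeff_add_of_degree_lt' (degree_lt_degree hdQ₁), hP₁,
      leadingCoeff_map_of_injective hCinj, hlP]
  have hfr : f.map (PowerSeries.rescale ω) = f := by
    have e1 : (PowerSeries.rescale ω).comp (PowerSeries.C : F →+* PowerSeries F) =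
        PowerSeries.C := by
      apply RingHom.ext
      intro x
      exact rescale_C' ω x
    have e2 := rescale_X3 ω hω3
    have e3 : PowerSeries.rescale ω (PowerSeries.X ^ 6 : PowerSeries F) = PowerSeries.X ^ 6 := by
      have : (PowerSeries.X ^ 6 : PowerSeries F) = (PowerSeries.X ^ 3) ^ 2 := by ring
      rw [this, map_pow, e2]
    rw [hf, hP₁, hQ₁, Polynomial.map_add, Polynomial.map_add, Polynomial.map_neg,
      Polynomial.map_mul, Polynomial.map_map, Polynomial.map_map, e1, map_C, map_C, map_mul,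
      map_ofNat, e2, e3]
  have hfc : f.map PowerSeries.constantCoeff = C u₀ * ((X - C w₁) ^ 3 * ∏ i, (X - C (a i))) := by
    have e1 : (PowerSeries.constantCoeff).comp (PowerSeries.C : F →+* PowerSeries F) =
        RingHom.id F := by
      apply RingHom.ext
      intro x
      simp
    rw [hf, hP₁, hQ₁, Polynomial.map_add, Polynomial.map_add, Polynomial.map_neg,
      Polynomial.map_mul, Polynomial.map_map, Polynomial.map_map, e1, map_C, map_C, ← hPP]
    simp
  have hfe : ∃ v : PowerSeries F, PowerSeries.constantCoeff v ≠ 0 ∧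
      f.eval (PowerSeries.C w₁) = PowerSeries.X ^ 3 * v := by
    refine ⟨-(2 * PowerSeries.C ((PA D κ g c T₁).eval w₁)) + PowerSeries.X ^ 3, ?_, ?_⟩
    · simp only [map_add, map_neg, map_mul, map_ofNat, PowerSeries.constantCoeff_C, map_pow,
        PowerSeries.constantCoeff_X]
      have h2 : (2 : F) ≠ 0 := by norm_num
      intro h
      have h3 : 2 * (PA D κ g c T₁).eval w₁ = 0 := by
        linear_combination -h
      exact hPA ((mul_eq_zero.1 h3).resolve_left h2)
    · have e1 : (PP D κ g u c T₁).eval w₁ = 0 := by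
        rw [hPP]
        simp
      rw [hf, hP₁, hQ₁, eval_add, eval_add, eval_neg, eval_mul, eval_C, eval_C, eval_map_apply,
        eval_map_apply, e1, map_zero]
      ring
  obtain ⟨α, z, -, hα, -, -, hz, hfact⟩ := Pool.Agent.Y241.WR.t_tri F ω hω f u₀ w₁ hu₀0 m hfd hfl
    hfr a ha haw hfc hfe
  -- the algebra structures
  let jC : F →+* Ω := j.comp PowerSeries.C
  let _ : Algebra F Ω := jC.toAlgebra
  let _ : Algebra k₀ Ω := (jC.comp (algebraMap k₀ F)).toAlgebra
  let _ : Algebra K Ω := (jC.comp (algebraMap K F)).toAlgebra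
  have hTk : IsScalarTower k₀ F Ω := IsScalarTower.of_algebraMap_eq fun x => rfl
  have hTK : IsScalarTower K k₀ Ω := IsScalarTower.of_algebraMap_eq fun x => by
    change jC (algebraMap K F x) = jC (algebraMap k₀ F (algebraMap K k₀ x))
    rw [← IsScalarTower.algebraMap_apply K k₀ F]
  let φ : F →ₐ[K] Ω := { jC with commutes' := fun x => rfl }
  have hφ : ∀ x, φ x = j (PowerSeries.C x) := fun x => rfl
  set T₂ : Ω := φ T₁ + j (PowerSeries.X ^ 3) with hT₂
  have hfmap : f.map j = PP D κ g u (fun i => φ (c i)) T₂ := by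
    have e1 : (φ : F →+* Ω) = j.comp PowerSeries.C := rfl
    rw [hT₂, PP_shift, ← PP_map, ← PA_map, e1, hf, hP₁, hQ₁, Polynomial.map_add,
      Polynomial.map_add, Polynomial.map_neg, Polynomial.map_mul, Polynomial.map_map,
      Polynomial.map_map, map_C, map_C, map_mul, map_ofNat, ← map_pow, ← pow_mul]
    ring
  -- independence
  let η₂ : Ix ι → Ω := Sum.elim (fun i => φ (c i)) (fun _ => T₂)
  have htrans : Transcendental F T₂ := by
    rw [transcendental_iff]
    intro p hp
    have h1 : ((p.comp (X + C T₁)).map (j.comp PowerSeries.C)).eval (j (PowerSeries.X ^ 3)) = 0 := by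
      rw [map_comp, eval_comp, Polynomial.map_add, map_X, map_C, eval_add, eval_X, eval_C]
      rw [aeval_def, ← eval_map] at hp
      have e1 : j (PowerSeries.X ^ 3) + (j.comp PowerSeries.C) T₁ = T₂ := by
        rw [hT₂, add_comm]
        rfl
      rw [e1]
      exact hp
    have h2 := htr _ h1
    have h3 : (p.comp (X + C T₁)).comp (X - C T₁) = p := by
      rw [comp_assoc]
      simp
    rw [← h3, h2, zero_comp]
  have hη₂ : AlgebraicIndependent k₀ η₂ := by
    have h1 : AlgebraicIndependent F (fun _ : Unit => T₂) :=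
      algebraicIndependent_unique_type_iff.2 htrans
    have h2 := AlgebraicIndependent.sumElim_comp hc h1
    have h3 := h2.comp (Sum.swap : (ι ⊕ Bool) ⊕ Unit → Unit ⊕ (ι ⊕ Bool)) Sum.swap_leftInverse.injective
    have h4 : (Sum.elim (fun _ : Unit => T₂) (algebraMap F Ω ∘ c)) ∘
        (Sum.swap : (ι ⊕ Bool) ⊕ Unit → Unit ⊕ (ι ⊕ Bool)) = η₂ := by
      funext x
      rcases x with x | x <;> rfl
    rw [h4] at h3
    exact h3
  obtain ⟨j₀, hj₀⟩ := Pool.Agent.H391R2.T4.lift_family η hη η₂ hη₂
  -- the automorphism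
  have hτC : ∀ x, τ (jC x) = jC x := fun x => by
    change τ (j (PowerSeries.C x)) = j (PowerSeries.C x)
    rw [hτ, rescale_C']
  have hτη : ∀ v, τ (η₂ v) = η₂ v := by
    intro v
    rcases v with v | v
    · exact hτC _
    · change τ (φ T₁ + j (PowerSeries.X ^ 3)) = φ T₁ + j (PowerSeries.X ^ 3)
      rw [map_add, hτ, rescale_X3 ω hω3]
      congr 1
      exact hτC _
  let τk : Ω →ₐ[k₀] Ω := { (τ : Ω →+* Ω) with commutes' := fun x => hτC _ }
  have halg : Algebra.IsAlgebraic (IntermediateField.adjoin k₀ (Set.range η)) N :=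
    hη.isAlgebraic_field
  have hnor : Normal (IntermediateField.adjoin k₀ (Set.range η)) N := by
    have : IsAlgClosure (IntermediateField.adjoin k₀ (Set.range η)) N := ⟨inferInstance, halg⟩
    exact IsAlgClosure.normal _ N
  obtain ⟨σ, hσ⟩ := Pool.Agent.H391R2.T4.exists_restrict
    (F := IntermediateField.adjoin k₀ (Set.range η)) (j₀ : N →+* Ω) τ (fun x => by
      refine Pool.Agent.H391R2.T4.eq_on_adjoin (τk.comp j₀) j₀ (Set.range η) ?_ _ x.2
      rintro _ ⟨v, rfl⟩
      change τ (j₀ (η v)) = j₀ (η v)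
      rw [hj₀, hτη])
  -- the roots
  let root : ZMod 3 ⊕ Fin m → Ω := Sum.elim (fun i => j (z i)) (fun i => j (α i))
  have hroots : ∀ x : Ω, (f.map j).eval x = 0 → ∃ s, x = root s := by
    intro x hx
    rw [hfact, Polynomial.map_mul, map_C, eval_mul, eval_C, mul_eq_zero] at hx
    rcases hx with hx | hx
    · exfalso
      apply hu₀0
      apply hCinj
      apply hj
      rw [hx, map_zero, map_zero]
    · rw [Polynomial.map_mul, eval_mul, mul_eq_zero, Polynomial.map_prod, Polynomial.map_prod,
        eval_prod, eval_prod, Finset.prod_eq_zero_iff, Finset.prod_eq_zero_iff] at hx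
      rcases hx with ⟨i, -, hi⟩ | ⟨i, -, hi⟩
      · refine ⟨Sum.inl i, ?_⟩
        rw [Polynomial.map_sub, map_X, map_C, eval_sub, eval_X, eval_C, sub_eq_zero] at hi
        exact hi
      · refine ⟨Sum.inr i, ?_⟩
        rw [Polynomial.map_sub, map_X, map_C, eval_sub, eval_X, eval_C, sub_eq_zero] at hi
        exact hi
  have hjr : ∀ i, ∃ s, j₀ (r i) = root s := by
    intro i
    apply hroots
    have h1 := hroot i
    have h2 := congrArg (j₀ : N →+* Ω) h1
    rw [map_zero, ← eval_map_apply] at h2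
    have h3 := PP_map D κ g u (j₀.restrictScalars K) (fun i => η (Sum.inl i)) (η (Sum.inr ()))
    have h4 : ((j₀.restrictScalars K : N →ₐ[K] Ω) : N →+* Ω) = (j₀ : N →+* Ω) := rfl
    rw [h4] at h3
    rw [h3] at h2
    have h5 : (fun i => (j₀.restrictScalars K) (η (Sum.inl i))) = fun i => φ (c i) := by
      funext i
      exact hj₀ (Sum.inl i)
    have h6 : (j₀.restrictScalars K) (η (Sum.inr ())) = T₂ := hj₀ (Sum.inr ())
    rw [h5, h6] at h2
    rw [hfmap]
    exact h2
  choose e he using hjr
  have heinj : Function.Injective e := by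
    intro i i' h
    apply hr
    have h1 : j₀ (r i) = j₀ (r i') := by rw [he, he, h]
    exact j₀.toRingHom.injective h1
  have hebij : Function.Bijective e := by
    rw [Fintype.bijective_iff_injective_and_card]
    refine ⟨heinj, ?_⟩
    rw [Fintype.card_sum, Fintype.card_fin, Fintype.card_fin, ZMod.card]
    omega
  let Ee : Fin (m + 3) ≃ ZMod 3 ⊕ Fin m := Equiv.ofBijective e hebij
  let ρ : Equiv.Perm (ZMod 3 ⊕ Fin m) := Equiv.sumCongr (Equiv.addRight 1) (Equiv.refl _)
  have hρ : ∀ s, root (ρ s) = τ (root s) := by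
    intro s
    rcases s with s | s
    · change j (z (s + 1)) = τ (j (z s))
      rw [hτ, hz]
    · change j (α s) = τ (j (α s))
      rw [hτ, hα]
  let π : Equiv.Perm (Fin (m + 3)) := Ee.trans (ρ.trans Ee.symm)
  have hπ : ∀ i, Ee (π i) = ρ (Ee i) := fun i => Ee.apply_symm_apply _
  refine ⟨σ.restrictScalars k₀, π, fun i => ?_, fun i => ?_, ?_⟩
  · exact σ.commutes ⟨η i, IntermediateField.subset_adjoin _ _ ⟨i, rfl⟩⟩
  · apply j₀.injective
    change j₀ (σ (r i)) = j₀ (r (π i))
    have h1 : j₀ (σ (r i)) = τ (j₀ (r i)) := hσ (r i)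
    rw [h1, he, he, ← hρ]
    exact congrArg root (hπ i).symm
  · refine threeCycle Ee π (fun i s hs => ?_) (fun i s hs => ?_)
    · rw [hπ, hs]
      rfl
    · rw [hπ, hs]
      rfl

end Pool.Agent.Y203.J.Cyc
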