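import Pool.Agent.Y793.Stm

/-! Dimension count for two differential conditions (job of helper793). -/

set_option autoImplicit false

namespace Pool.Agent.Y203.J

open Polynomial Pool.Agent.Y793 Module

variable {K : Type} [Field K]

/-- the operator `g ↦ A g + 2 (X D g)'` -/
noncomputable def LL (A D : K[X]) : K[X] →ₗ[K] K[X] where
  toFun g := A * g + 2 * derivative (X * D * g)
  map_add' x y := by
    simp only [mul_add, derivative_add]
    ring
  map_smul' c x := by
    simp only [RingHom.id_apply, smul_eq_C_mul]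
    have e : X * D * (C c * x) = C c * (X * D * x) := by ring
    rw [e, derivative_C_mul]
    ring

theorem LL_apply (A D g : K[X]) : LL A D g = A * g + 2 * derivative (X * D * g) := rfl

theorem LL_coeff {A D : K[X]} {d a n : ℕ} (hA : ∀ k, d < k → A.coeff k = 0)
    (hAd : A.coeff d = a * D.coeff d) (hD : ∀ k, d < k → D.coeff k = 0) {g : K[X]}
    (hg : ∀ k, n < k → g.coeff k = 0) :
    (∀ k, n + d < k → (LL A D g).coeff k = 0) ∧
      (LL A D g).coeff (n + d) = (a + 2 * (n + d + 1) : ℕ) * (D.coeff d * g.coeff n) := by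
  have hA' : A.natDegree ≤ d := natDegree_le_iff_coeff_eq_zero.2 fun k hk => hA k hk
  have hD' : D.natDegree ≤ d := natDegree_le_iff_coeff_eq_zero.2 fun k hk => hD k hk
  have hg' : g.natDegree ≤ n := natDegree_le_iff_coeff_eq_zero.2 fun k hk => hg k hk
  have hDg : (D * g).natDegree ≤ d + n := natDegree_mul_le_of_le hD' hg'
  have e2 : ∀ k, (2 * derivative (X * D * g)).coeff k = 2 * ((D * g).coeff k * (k + 1)) := by
    intro k
    have e : (2 : K[X]) = C 2 := (map_ofNat C 2).symm
    rw [e, coeff_C_mul, coeff_derivative, mul_assoc, coeff_X_mul]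
  constructor
  · intro k hk
    rw [LL_apply, coeff_add, e2]
    have h1 : (A * g).coeff k = 0 := by
      apply coeff_eq_zero_of_natDegree_lt
      have := natDegree_mul_le_of_le hA' hg'
      omega
    have h2 : (D * g).coeff k = 0 := by
      apply coeff_eq_zero_of_natDegree_lt
      omega
    rw [h1, h2]
    ring
  · rw [LL_apply, coeff_add, e2]
    have h1 : (A * g).coeff (n + d) = A.coeff d * g.coeff n := by
      rw [add_comm n d]
      exact coeff_mul_add_eq_of_natDegree_le hA' hg'
    have h2 : (D * g).coeff (n + d) = D.coeff d * g.coeff n := by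
      rw [add_comm n d]
      exact coeff_mul_add_eq_of_natDegree_le hD' hg'
    rw [h1, h2, hAd]
    push_cast
    ring

theorem LL_natDegree [CharZero K] {A D : K[X]} {a : ℕ} (hD0 : D ≠ 0)
    (hA : ∀ k, D.natDegree < k → A.coeff k = 0) (hAd : A.coeff D.natDegree = a * D.coeff D.natDegree)
    {g : K[X]} (hg : g ≠ 0) : (LL A D g).natDegree = g.natDegree + D.natDegree := by
  obtain ⟨h1, h2⟩ := LL_coeff (n := g.natDegree) hA hAd (fun k hk => coeff_eq_zero_of_natDegree_lt hk)
    (fun k hk => coeff_eq_zero_of_natDegree_lt hk)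
  apply le_antisymm
  · exact natDegree_le_iff_coeff_eq_zero.2 fun k hk => h1 k hk
  · apply le_natDegree_of_ne_zero
    rw [h2]
    apply mul_ne_zero
    · have : a + 2 * (g.natDegree + D.natDegree + 1) ≠ 0 := by omega
      exact_mod_cast this
    · exact mul_ne_zero (leadingCoeff_ne_zero.2 hD0) (leadingCoeff_ne_zero.2 hg)

theorem LL_range [CharZero K] {A D : K[X]} {a : ℕ} (hD0 : D ≠ 0)
    (hA : ∀ k, D.natDegree < k → A.coeff k = 0) (hAd : A.coeff D.natDegree = a * D.coeff D.natDegree)
    (N : ℕ) : degreeLT K (D.natDegree + N) ≤ LinearMap.range (LL A D) ⊔ degreeLT K D.natDegree := by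
  induction N with
  | zero => exact le_sup_right
  | succ N ih =>
    intro f hf
    obtain ⟨t, ht⟩ : ∃ t : K, t = (a + 2 * (N + D.natDegree + 1) : ℕ) * D.coeff D.natDegree := ⟨_, rfl⟩
    have ht0 : t ≠ 0 := by
      rw [ht]
      apply mul_ne_zero
      · have : a + 2 * (N + D.natDegree + 1) ≠ 0 := by omega
        exact_mod_cast this
      · exact leadingCoeff_ne_zero.2 hD0
    obtain ⟨h1, h2⟩ := LL_coeff (n := N) (g := monomial N (f.coeff (D.natDegree + N) / t)) hA hAd
      (fun k hk => coeff_eq_zero_of_natDegree_lt hk) (fun k hk => by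
        rw [coeff_monomial, if_neg (by omega)])
    rw [coeff_monomial, if_pos rfl] at h2
    have h3 : f - LL A D (monomial N (f.coeff (D.natDegree + N) / t)) ∈ degreeLT K (D.natDegree + N) := by
      rw [mem_degreeLT, degree_lt_iff_coeff_zero]
      intro k hk
      rw [coeff_sub]
      rcases (Nat.lt_or_ge (D.natDegree + N) k) with h4 | h4
      · rw [h1 k (by omega), sub_zero]
        rw [mem_degreeLT, degree_lt_iff_coeff_zero] at hf
        exact hf k (by omega)
      · have : k = D.natDegree + N := by omega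
        subst this
        rw [add_comm D.natDegree N] at *
        rw [h2]
        have e : ((a + 2 * (N + D.natDegree + 1) : ℕ) : K) * (D.coeff D.natDegree *
          (f.coeff (N + D.natDegree) / t)) = t * (f.coeff (N + D.natDegree) / t) := by
          rw [ht]; ring
        rw [e, mul_div_cancel₀ _ ht0, sub_self]
    have h5 : f = LL A D (monomial N (f.coeff (D.natDegree + N) / t)) +
        (f - LL A D (monomial N (f.coeff (D.natDegree + N) / t))) := by ring
    rw [h5]
    exact add_mem (Submodule.mem_sup_left (LinearMap.mem_range_self _ _)) (ih h3)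

theorem LL_top [CharZero K] {A D : K[X]} {a : ℕ} (hD0 : D ≠ 0)
    (hA : ∀ k, D.natDegree < k → A.coeff k = 0) (hAd : A.coeff D.natDegree = a * D.coeff D.natDegree) :
    LinearMap.range (LL A D) ⊔ degreeLT K D.natDegree = ⊤ := by
  rw [eq_top_iff]
  intro f _
  refine LL_range hD0 hA hAd (f.natDegree + 1) ?_
  rw [mem_degreeLT]
  refine lt_of_le_of_lt degree_le_natDegree ?_
  exact_mod_cast (by omega : f.natDegree < D.natDegree + (f.natDegree + 1))

/-- the quotient by the range has dimension at most the degree -/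
theorem LL_quot [CharZero K] {A D : K[X]} {a : ℕ} (hD0 : D ≠ 0)
    (hA : ∀ k, D.natDegree < k → A.coeff k = 0) (hAd : A.coeff D.natDegree = a * D.coeff D.natDegree) :
    FiniteDimensional K (K[X] ⧸ LinearMap.range (LL A D)) ∧
      finrank K (K[X] ⧸ LinearMap.range (LL A D)) ≤ D.natDegree := by
  have hfin : FiniteDimensional K (degreeLT K D.natDegree) :=
    (degreeLTEquiv K D.natDegree).symm.finiteDimensional
  have hsurj : Function.Surjective
      ((LinearMap.range (LL A D)).mkQ.comp (degreeLT K D.natDegree).subtype) := by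
    intro q
    obtain ⟨f, rfl⟩ := Submodule.mkQ_surjective _ q
    have hf : f ∈ LinearMap.range (LL A D) ⊔ degreeLT K D.natDegree := by
      rw [LL_top hD0 hA hAd]; trivial
    obtain ⟨y, hy, z, hz, rfl⟩ := Submodule.mem_sup.1 hf
    refine ⟨⟨z, hz⟩, ?_⟩
    simp only [LinearMap.comp_apply, Submodule.subtype_apply, map_add]
    have : (LinearMap.range (LL A D)).mkQ y = 0 := by
      rw [Submodule.mkQ_apply, Submodule.Quotient.mk_eq_zero]
      exact hy
    rw [this, zero_add]
  refine ⟨Module.Finite.of_surjective _ hsurj, ?_⟩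
  have h1 := LinearMap.finrank_le_finrank_of_surjective hsurj
  have h2 : finrank K (degreeLT K D.natDegree) = D.natDegree := by
    rw [(degreeLTEquiv K D.natDegree).finrank_eq]
    simp
  omega

/-- the polynomials which satisfy both conditions -/
def Gd (D κ : K[X]) : Prop :=
  (∃ g, LL D D g = 6 * κ * derivative (X * D)) ∧ ∃ u, LL (X * derivative D) D u = 4 * κ

theorem hA1 (D : K[X]) : (∀ k, D.natDegree < k → D.coeff k = 0) ∧
    D.coeff D.natDegree = (1 : ℕ) * D.coeff D.natDegree :=
  ⟨fun _ hk => coeff_eq_zero_of_natDegree_lt hk, by simp⟩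

theorem hA2 (D : K[X]) : (∀ k, D.natDegree < k → (X * derivative D).coeff k = 0) ∧
    (X * derivative D).coeff D.natDegree = (D.natDegree : ℕ) * D.coeff D.natDegree := by
  have h : ∀ k, (X * derivative D).coeff k = k * D.coeff k := by
    intro k
    cases k with
    | zero => simp
    | succ k =>
      rw [coeff_X_mul, coeff_derivative]
      push_cast
      ring
  refine ⟨fun k hk => ?_, h _⟩
  rw [h, coeff_eq_zero_of_natDegree_lt hk, mul_zero]

/-- at most `2 d` degrees are missing -/
theorem missing [CharZero K] {D : K[X]} (hD : D ≠ 0) (T : Finset ℕ)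
    (hT : ∀ n ∈ T, ¬ ∃ κ : K[X], κ ≠ 0 ∧ κ.natDegree = n ∧ Gd D κ) : T.card ≤ 2 * D.natDegree := by
  classical
  obtain ⟨f1, q1⟩ := LL_quot hD (hA1 D).1 (hA1 D).2
  obtain ⟨f2, q2⟩ := LL_quot hD (hA2 D).1 (hA2 D).2
  by_contra hcon
  push Not at hcon
  obtain ⟨Ψ, hΨ⟩ : ∃ Ψ : K[X] →ₗ[K] (K[X] ⧸ LinearMap.range (LL D D)) ×
      (K[X] ⧸ LinearMap.range (LL (X * derivative D) D)), ∀ κ, Ψ κ =
        (Submodule.Quotient.mk (6 * κ * derivative (X * D)), Submodule.Quotient.mk (4 * κ)) := by
    refine ⟨LinearMap.prod ((LinearMap.range (LL D D)).mkQ.comp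
      (LinearMap.mulLeft K (6 * derivative (X * D))))
      ((LinearMap.range (LL (X * derivative D) D)).mkQ.comp (LinearMap.mulLeft K 4)), fun κ => ?_⟩
    have e1 : 6 * κ * derivative (X * D) = 6 * derivative (X * D) * κ := by ring
    rw [e1]
    rfl
  have hker : ∀ κ, Ψ κ = 0 → Gd D κ := by
    intro κ h
    rw [hΨ, Prod.mk_eq_zero, Submodule.Quotient.mk_eq_zero, Submodule.Quotient.mk_eq_zero] at h
    exact ⟨h.1, h.2⟩
  have hnli : ¬ LinearIndependent K (fun n : T => Ψ (X ^ (n : ℕ))) := by
    intro h
    have h1 := h.fintype_card_le_finrank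
    rw [Module.finrank_prod, Fintype.card_coe] at h1
    omega
  rw [Fintype.not_linearIndependent_iff] at hnli
  obtain ⟨c, hc, i0, hi0⟩ := hnli
  obtain ⟨κ, hκ⟩ : ∃ κ : K[X], κ = ∑ n : T, C (c n) * X ^ (n : ℕ) := ⟨_, rfl⟩
  have hco : ∀ k, κ.coeff k = if h : k ∈ T then c ⟨k, h⟩ else 0 := by
    intro k
    rw [hκ, finsetSum_coeff]
    split_ifs with h
    · rw [Finset.sum_eq_single ⟨k, h⟩]
      · simp
      · intro b _ hb
        rw [coeff_C_mul, coeff_X_pow, if_neg, mul_zero]
        intro h2
        apply hb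
        exact Subtype.ext h2.symm
      · intro h2; exact absurd (Finset.mem_univ _) h2
    · apply Finset.sum_eq_zero
      intro b _
      rw [coeff_C_mul, coeff_X_pow, if_neg, mul_zero]
      intro h2
      apply h
      rw [h2]
      exact b.2
  have hne : κ ≠ 0 := by
    intro h
    have := hco i0
    rw [h, coeff_zero, dif_pos i0.2] at this
    exact hi0 this.symm
  have hgd : Gd D κ := by
    apply hker
    rw [hκ, map_sum]
    rw [← hc]
    apply Finset.sum_congr rfl
    intro n _
    rw [← smul_eq_C_mul, map_smul]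
  have hdeg : κ.natDegree ∈ T := by
    by_contra h
    have h1 := hco κ.natDegree
    rw [dif_neg h] at h1
    exact (leadingCoeff_ne_zero.2 hne) h1
  exact hT _ hdeg ⟨κ, hne, rfl, hgd⟩

theorem t_data : St_data := by
  classical
  intro K _ _ D hD
  obtain ⟨S, hS⟩ : ∃ S : Set ℕ, S = {n | ¬ ∃ κ : K[X], κ ≠ 0 ∧ κ.natDegree = n ∧ Gd D κ} := ⟨_, rfl⟩
  have hSf : S.Finite := by
    by_contra hinf
    obtain ⟨T, hT, hc⟩ := Set.Infinite.exists_subset_card_eq hinf (2 * D.natDegree + 1)
    have := missing hD T (fun n hn => by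
      have h1 : n ∈ S := hT hn
      rw [hS] at h1
      exact h1)
    omega
  obtain ⟨B, hB⟩ := hSf.bddAbove
  refine ⟨B + 1 + (4 * D.natDegree + 4), fun k hk => ?_⟩
  obtain ⟨G, hG⟩ : ∃ G : Finset ℕ, G = (Finset.range (k + 1)).filter fun n => n ∉ S := ⟨_, rfl⟩
  have hcard : k + 1 ≤ G.card + 2 * D.natDegree := by
    have h1 : ((Finset.range (k + 1)).filter fun n => ¬ n ∉ S).card ≤ 2 * D.natDegree := by
      apply missing hD
      intro n hn
      have h2 := (Finset.mem_filter.1 hn).2
      rw [not_not, hS] at h2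
      exact h2
    have h2 := Finset.card_filter_add_card_filter_not (s := Finset.range (k + 1)) (fun n => n ∉ S)
    rw [Finset.card_range, ← hG] at h2
    omega
  have hmem : ∀ n ∈ G, n ≤ k ∧ n ∉ S := by
    intro n hn
    rw [hG, Finset.mem_filter, Finset.mem_range] at hn
    exact ⟨by omega, hn.2⟩
  have hex : ∀ n : G, ∃ κ : K[X], κ ≠ 0 ∧ κ.natDegree = n ∧ Gd D κ := by
    intro n
    have h1 : (n : ℕ) ∉ S := (hmem n n.2).2
    rw [hS, Set.mem_ofPred_eq, not_not] at h1
    exact h1
  choose κ h0 hdeg hgd using hex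
  have hgd1 := fun n => (hgd n).1
  have hgd2 := fun n => (hgd n).2
  choose g hg using hgd1
  choose u hu using hgd2
  obtain e := G.equivFin.symm
  have hle : ∀ n : G, (n : ℕ) ≤ k := by
    intro n
    exact (hmem n n.2).1
  refine ⟨G.card, fun i => κ (e i), fun i => g (e i), fun i => u (e i), ?_⟩
  have hDpos : ∀ n : G, (6 * κ n * derivative (X * D)).natDegree ≤ n + D.natDegree := by
    intro n
    have h1 : (6 * κ n).natDegree ≤ n := by
      have h2 : (6 : K[X]) = C 6 := (map_ofNat C 6).symm
      rw [h2]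
      exact (natDegree_C_mul_le _ _).trans (hdeg n).le
    have h2 : (derivative (X * D)).natDegree ≤ D.natDegree := by
      refine (natDegree_derivative_le _).trans ?_
      rw [natDegree_X_mul hD]
      omega
    exact natDegree_mul_le_of_le h1 h2
  refine ⟨hD, fun i => ?_, fun i => ?_, ?_, fun i => ?_, fun i => ?_, fun i => ?_, ?_, ?_⟩
  · rw [← hg (e i)]
    rfl
  · rw [← hu (e i)]
    rfl
  · have hli : LinearIndependent K κ := by
      rw [Fintype.linearIndependent_iff]
      intro c hc
      have h1 := degree_sum_eq_of_disjoint (fun i => c i • κ i) Finset.univ (by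
        intro a ha b hb hab
        simp only [Finset.mem_univ, true_and, Set.mem_ofPred_eq] at ha hb
        have ha' : c a ≠ 0 := by rintro h; rw [h, zero_smul] at ha; exact ha rfl
        have hb' : c b ≠ 0 := by rintro h; rw [h, zero_smul] at hb; exact hb rfl
        simp only [Function.onFun, Function.comp_apply]
        rw [degree_smul_of_smul_regular _ (IsSMulRegular.of_ne_zero ha'),
          degree_smul_of_smul_regular _ (IsSMulRegular.of_ne_zero hb'), degree_eq_natDegree (h0 a),
          degree_eq_natDegree (h0 b), hdeg, hdeg]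
        intro h
        apply hab
        apply Subtype.ext
        exact_mod_cast h)
      rw [hc, degree_zero] at h1
      intro i
      have h2 : (c i • κ i).degree ≤ ⊥ := by
        rw [h1]
        exact Finset.le_sup (f := fun i => (c i • κ i).degree) (Finset.mem_univ i)
      rw [le_bot_iff, degree_eq_bot, smul_eq_zero] at h2
      rcases h2 with h2 | h2
      · exact h2
      · exact absurd h2 (h0 i)
    exact hli.comp e e.injective
  · rw [hdeg]
    exact hle _
  · by_cases hz : g (e i) = 0
    · rw [hz]; simp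
    · have h1 := LL_natDegree hD (hA1 D).1 (hA1 D).2 hz
      rw [hg] at h1
      have h2 := hDpos (e i)
      have h3 := hle (e i)
      omega
  · by_cases hz : u (e i) = 0
    · rw [hz]; simp
    · have h1 := LL_natDegree hD (hA2 D).1 (hA2 D).2 hz
      rw [hu] at h1
      have h2 : (4 * κ (e i)).natDegree ≤ (e i : ℕ) := by
        have h2 : (4 : K[X]) = C 4 := (map_ofNat C 4).symm
        rw [h2]
        exact (natDegree_C_mul_le _ _).trans (hdeg _).le
      have h3 := hle (e i)
      omega
  · have hkG : k ∈ G := by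
      rw [hG, Finset.mem_filter, Finset.mem_range]
      refine ⟨by omega, fun h => ?_⟩
      have := hB h
      omega
    refine ⟨e.symm ⟨k, hkG⟩, ?_⟩
    rw [Equiv.apply_symm_apply, hdeg]
  · rw [Fintype.card_fin]
    omega

end Pool.Agent.Y203.J
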