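import Pool.Agent.Y793.Stm

/-! Isotropy lemma (job of helper793). -/

set_option autoImplicit false

namespace Pool.Agent.Y203.J

open Polynomial Pool.Agent.Y793 Module

section adr

variable {K E : Type} [Field K] [CharZero K] [Field E] [Algebra K E]

/-- the antiderivative as a linear map -/
noncomputable def adL (K E : Type) [Field K] [Field E] [Algebra K E] : E[X] →ₗ[E] E[X] :=
  Polynomial.lsum fun n => (monomial (n + 1)).comp
    (LinearMap.mulLeft E (algebraMap K E ((n : K) + 1)⁻¹))

theorem adL_apply (p : E[X]) : adL K E p = adr K p := by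
  unfold adL adr
  rfl

theorem derivative_adL (p : E[X]) : derivative (adL K E p) = p := by
  have : (derivative.comp (adL K E) : E[X] →ₗ[E] E[X]) = LinearMap.id := by
    apply Polynomial.lhom_ext'
    intro n
    ext
    simp only [LinearMap.comp_apply, adL]
    rw [Polynomial.lsum_apply, sum_monomial_index _ _ (by simp)]
    simp only [LinearMap.comp_apply, LinearMap.mulLeft_apply, derivative_monomial]
    have h0 : (n : K) + 1 ≠ 0 := by exact_mod_cast Nat.succ_ne_zero n
    have h1 : algebraMap K E ((n : K) + 1)⁻¹ * 1 * ((n + 1 : ℕ) : E) = 1 := by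
      have e : (((n + 1 : ℕ) : E)) = algebraMap K E ((n : K) + 1) := by
        push_cast
        simp
      rw [e, mul_one, ← map_mul, inv_mul_cancel₀ h0, map_one]
    rw [h1]
    simp
  exact LinearMap.congr_fun this p

theorem natDegree_adL (p : E[X]) : (adL K E p).natDegree ≤ p.natDegree + 1 := by
  rw [adL_apply]
  unfold adr
  refine natDegree_sum_le_of_forall_le _ _ ?_
  intro n hn
  refine (natDegree_monomial_le _).trans ?_
  have := le_natDegree_of_mem_supp n hn
  omega

/-- the antiderivative with value `0` at `t` -/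
noncomputable def TT (K : Type) {E : Type} [Field K] [Field E] [Algebra K E] (t : E) (p : E[X]) :
    E[X] := adL K E p - C ((adL K E p).eval t)

theorem TT_eval (t : E) (p : E[X]) : (TT K t p).eval t = 0 := by
  unfold TT
  simp

theorem TT_der (t : E) (p : E[X]) : derivative (TT K t p) = p := by
  unfold TT
  rw [derivative_sub, derivative_C, sub_zero, derivative_adL]

theorem TT_deg (t : E) (p : E[X]) : (TT K t p).natDegree ≤ p.natDegree + 1 := by
  unfold TT
  refine (natDegree_sub_le _ _).trans ?_
  rw [natDegree_C]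
  exact max_le (natDegree_adL p) (Nat.zero_le _)

/-- the integral from `t` to `s` -/
noncomputable def II (K : Type) {E : Type} [Field K] [Field E] [Algebra K E] (s t : E) (p : E[X]) :
    E := (adL K E p).eval s - (adL K E p).eval t

theorem II_eq (s t : E) (p : E[X]) : II K s t p = (TT K t p).eval s := by
  unfold II TT
  simp

theorem II_der (s t : E) (p : E[X]) : II K s t (derivative p) = p.eval s - p.eval t := by
  have : CharZero E := charZero_of_injective_algebraMap (algebraMap K E).injective
  have h1 : derivative (adL K E (derivative p) - p) = 0 := by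
    rw [derivative_sub, derivative_adL, sub_self]
  have h2 := derivative_eq_zero.1 h1
  rw [natDegree_eq_zero] at h2
  obtain ⟨c, hc⟩ := h2
  have h3 : adL K E (derivative p) = p + C c := by rw [hc]; ring
  unfold II
  rw [h3]
  simp

end adr

section main

variable {K E : Type} [Field K] [CharZero K] [Field E] [Algebra K E]

theorem II_sub (s t : E) (p q : E[X]) : II K s t (p - q) = II K s t p - II K s t q := by
  unfold II
  rw [map_sub, eval_sub, eval_sub]
  ring

theorem II_smul (s t : E) (c : E) (p : E[X]) : II K s t (C c * p) = c * II K s t p := by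
  unfold II
  rw [← smul_eq_C_mul, map_smul, eval_smul, eval_smul]
  simp only [smul_eq_mul]
  ring

/-- integration by parts -/
theorem parts {s t : E} {f : E[X]} (j : ℕ) :
    II K s t (f * (C s - X) ^ (j + 1)) = (j + 1) * II K s t (TT K t f * (C s - X) ^ j) := by
  have h1 := II_der (K := K) s t (TT K t f * (C s - X) ^ (j + 1))
  rw [derivative_mul, TT_der] at h1
  have h2 : derivative ((C s - X : E[X]) ^ (j + 1)) = - (C ((j : E) + 1) * (C s - X) ^ j) := by
    rw [derivative_pow]
    simp
  rw [h2] at h1
  have e : f * (C s - X) ^ (j + 1) + TT K t f * -(C ((j : E) + 1) * (C s - X) ^ j) =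
      f * (C s - X) ^ (j + 1) - C ((j : E) + 1) * (TT K t f * (C s - X) ^ j) := by ring
  rw [e, II_sub, II_smul] at h1
  simp only [eval_mul, eval_pow, eval_sub, eval_C, eval_X, sub_self, TT_eval, zero_mul] at h1
  rw [zero_pow (Nat.succ_ne_zero j), mul_zero, sub_zero] at h1
  linear_combination h1

theorem iter {s t : E} (j : ℕ) : ∀ f : E[X],
    II K s t (f * (C s - X) ^ j) = (j.factorial : E) * ((TT K t)^[j + 1] f).eval s := by
  induction j with
  | zero =>
    intro f
    simp [II_eq]
  | succ j ih =>
    intro f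
    rw [parts, ih (TT K t f), Nat.factorial_succ]
    rw [Function.iterate_succ_apply (TT K t) (j + 1) f]
    push_cast
    ring

theorem der_iter {t : E} (f : E[X]) (n : ℕ) : ∀ i, i ≤ n →
    derivative^[i] ((TT K t)^[n] f) = (TT K t)^[n - i] f := by
  intro i
  induction i with
  | zero => intro _; rfl
  | succ i ih =>
    intro hi
    rw [Function.iterate_succ_apply', ih (by omega)]
    have e : n - i = (n - (i + 1)) + 1 := by omega
    rw [e, Function.iterate_succ_apply', TT_der]

theorem deg_iter {t : E} (f : E[X]) (n : ℕ) : ((TT K t)^[n] f).natDegree ≤ f.natDegree + n := by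
  induction n with
  | zero => simp
  | succ n ih =>
    rw [Function.iterate_succ_apply']
    refine (TT_deg _ _).trans ?_
    omega

/-- the form is nondegenerate -/
theorem nondeg {s t : E} (hst : s ≠ t) {k : ℕ} {f : E[X]} (hf : f.natDegree ≤ k)
    (h : ∀ g : E[X], g.natDegree ≤ k → II K s t (f * g) = 0) : f = 0 := by
  have : CharZero E := charZero_of_injective_algebraMap (algebraMap K E).injective
  have h1 : ∀ j, j ≤ k → ((TT K t)^[j + 1] f).eval s = 0 := by
    intro j hj
    have h2 := h ((C s - X) ^ j) (by
      refine natDegree_pow_le.trans ?_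
      have : (C s - X : E[X]).natDegree ≤ 1 := by
        refine (natDegree_sub_le _ _).trans ?_
        simp
      nlinarith)
    rw [iter] at h2
    rcases mul_eq_zero.1 h2 with h3 | h3
    · exfalso
      exact (Nat.factorial_ne_zero j) (by exact_mod_cast h3)
    · exact h3
  obtain ⟨p, hp⟩ : ∃ p, p = (TT K t)^[k + 1] f := ⟨_, rfl⟩
  have hdeg : p.natDegree ≤ 2 * k + 1 := by
    have := deg_iter (K := K) (t := t) f (k + 1)
    rw [← hp] at this
    omega
  have hder : ∀ i, i ≤ k → derivative^[i] p = (TT K t)^[(k - i) + 1] f := by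
    intro i hi
    rw [hp, der_iter f (k + 1) i (by omega)]
    congr 1
    omega
  have hp0 : p = 0 := by
    by_contra hne
    have hs : (X - C s) ^ (k + 1) ∣ p := by
      rw [← le_rootMultiplicity_iff hne]
      have : k < p.rootMultiplicity s := by
        rw [lt_rootMultiplicity_iff_isRoot_iterate_derivative hne]
        intro m hm
        rw [hder m hm]
        exact h1 _ (by omega)
      omega
    have ht : (X - C t) ^ (k + 1) ∣ p := by
      rw [← le_rootMultiplicity_iff hne]
      have : k < p.rootMultiplicity t := by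
        rw [lt_rootMultiplicity_iff_isRoot_iterate_derivative hne]
        intro m hm
        rw [hder m hm, Function.iterate_succ_apply']
        exact TT_eval _ _
      omega
    have hcop : IsCoprime ((X - C s) ^ (k + 1)) ((X - C t : E[X]) ^ (k + 1)) :=
      (isCoprime_X_sub_C_of_isUnit_sub (sub_ne_zero.2 hst).isUnit).pow
    have h3 := natDegree_le_of_dvd (hcop.mul_dvd hs ht) hne
    rw [natDegree_mul (pow_ne_zero _ (X_sub_C_ne_zero s)) (pow_ne_zero _ (X_sub_C_ne_zero t)),
      natDegree_pow, natDegree_pow, natDegree_X_sub_C, natDegree_X_sub_C] at h3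
    omega
  have h4 := der_iter (K := K) (t := t) f (k + 1) (k + 1) le_rfl
  rw [← hp, hp0, Nat.sub_self] at h4
  simpa using h4.symm

end main

/-- linear independence over `K` of polynomials gives linear independence over an extension -/
theorem li_map {K F ι : Type} [Field K] [Field F] [Algebra K F] [Fintype ι] {κ : ι → K[X]}
    (h : LinearIndependent K κ) {u : ι → F}
    (hu : ∑ i, C (u i) * (κ i).map (algebraMap K F) = 0) : u = 0 := by
  rw [Fintype.linearIndependent_iff] at h
  have h1 : ∀ ℓ : Module.Dual K F, ∀ i, ℓ (u i) = 0 := by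
    intro ℓ
    apply h
    ext n
    have h2 := congrArg (fun p => ℓ (coeff p n)) hu
    simp only [finsetSum_coeff, coeff_C_mul, coeff_map, coeff_zero, map_zero, map_sum] at h2
    rw [finsetSum_coeff, coeff_zero, ← h2]
    apply Finset.sum_congr rfl
    intro i _
    rw [coeff_smul, smul_eq_mul, mul_comm (u i), ← Algebra.smul_def, map_smul, smul_eq_mul, mul_comm]
  funext i
  exact (Module.forall_dual_apply_eq_zero_iff K (u i)).1 fun ℓ => h1 ℓ i

theorem t_iso : St_iso := by
  classical
  intro K F ι _ _ _ _ _ κ k hli hdeg s₁ s₂ hs U hU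
  have hF : CharZero F := charZero_of_injective_algebraMap (algebraMap K F).injective
  obtain ⟨P, hP⟩ : ∃ P : Submodule F F[X], P = degreeLT F (k + 1) := ⟨_, rfl⟩
  have hfin : FiniteDimensional F P := by
    rw [hP]
    exact (degreeLTEquiv F (k + 1)).symm.finiteDimensional
  have hrank : finrank F P = k + 1 := by
    rw [hP, (degreeLTEquiv F (k + 1)).finrank_eq]
    simp
  have hmemP : ∀ p : F[X], p ∈ P ↔ p.natDegree ≤ k := by
    intro p
    rw [hP, mem_degreeLT, natDegree_le_iff_degree_le, ← Order.lt_succ_iff_of_not_isMax]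
    · rfl
    · simp
  obtain ⟨Θ, hΘ⟩ : ∃ Θ : U →ₗ[F] P, ∀ u : U,
      ((Θ u : P) : F[X]) = ∑ i, C ((u : ι → F) i) * (κ i).map (algebraMap K F) := by
    obtain ⟨θ, hθ⟩ : ∃ θ : (ι → F) →ₗ[F] F[X], ∀ u, θ u =
        ∑ i, C (u i) * (κ i).map (algebraMap K F) :=
      ⟨{ toFun := fun u => ∑ i, C (u i) * (κ i).map (algebraMap K F)
         map_add' := fun x y => by
           rw [← Finset.sum_add_distrib]
           exact Finset.sum_congr rfl fun i _ => by rw [Pi.add_apply, C_add, add_mul]
         map_smul' := fun c x => by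
           rw [RingHom.id_apply, Finset.smul_sum]
           exact Finset.sum_congr rfl fun i _ => by
             rw [Pi.smul_apply, smul_eq_mul, C_mul, smul_eq_C_mul, mul_assoc] }, fun _ => rfl⟩
    have hθP : ∀ u, θ u ∈ P := by
      intro u
      rw [hmemP, hθ]
      refine natDegree_sum_le_of_forall_le _ _ fun i _ => ?_
      refine (natDegree_C_mul_le _ _).trans ((natDegree_map_le).trans (hdeg i))
    exact ⟨(θ.codRestrict P hθP).comp U.subtype, fun u => hθ _⟩
  have hΘi : Function.Injective Θ := by
    rw [← LinearMap.ker_eq_bot, LinearMap.ker_eq_bot']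
    intro u hu
    have h1 := hΘ u
    rw [hu] at h1
    have h2 := li_map hli (u := (u : ι → F)) (by rw [← h1]; rfl)
    exact Subtype.ext h2
  -- the form
  obtain ⟨J, hJ⟩ : ∃ J : F[X] →ₗ[F] F, ∀ p, J p = II K s₁ s₂ p := by
    refine ⟨{ toFun := fun p => II K s₁ s₂ p
              map_add' := fun p q => ?_
              map_smul' := fun c p => ?_ }, fun _ => rfl⟩
    · unfold II
      rw [map_add, eval_add, eval_add]
      ring
    · rw [smul_eq_C_mul, II_smul]
      rfl
  obtain ⟨B, hB⟩ : ∃ B : P →ₗ[F] Module.Dual F P, ∀ p q : P,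
      B p q = II K s₁ s₂ ((p : F[X]) * (q : F[X])) := by
    refine ⟨LinearMap.mk₂ F (fun p q => J ((p : F[X]) * (q : F[X]))) ?_ ?_ ?_ ?_, ?_⟩
    · intro a b c
      rw [Submodule.coe_add, add_mul, map_add]
    · intro c a b
      rw [Submodule.coe_smul, smul_mul_assoc, map_smul]
    · intro a b c
      rw [Submodule.coe_add, mul_add, map_add]
    · intro c a b
      rw [Submodule.coe_smul, mul_smul_comm, map_smul]
    · intro p q
      rw [LinearMap.mk₂_apply, hJ]
  have hBi : Function.Injective B := by
    rw [← LinearMap.ker_eq_bot, LinearMap.ker_eq_bot']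
    intro p hp
    apply Subtype.ext
    refine nondeg (K := K) hs ((hmemP _).1 p.2) fun g hg => ?_
    have h1 := LinearMap.congr_fun hp ⟨g, (hmemP g).2 hg⟩
    rw [hB] at h1
    simpa using h1
  have hBs : Function.Surjective B :=
    (LinearMap.injective_iff_surjective_of_finrank_eq_finrank
      (Subspace.dual_finrank_eq (K := F) (V := P)).symm).1 hBi
  obtain ⟨W, hW⟩ : ∃ W : Submodule F P, W = LinearMap.range Θ := ⟨_, rfl⟩
  have hWr : finrank F W = finrank F U := by
    rw [hW]
    exact LinearMap.finrank_range_of_inj hΘi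
  have hiso : ∀ w ∈ W, B w w = 0 := by
    intro w hw
    rw [hW] at hw
    obtain ⟨u, rfl⟩ := hw
    rw [hB, hΘ]
    have h1 := hU u u.2
    unfold II
    rw [adL_apply, ← pow_two, h1, sub_self]
  have hsym : ∀ p q : P, B p q = B q p := by
    intro p q
    rw [hB, hB, mul_comm]
  have hiso2 : ∀ w ∈ W, ∀ w' ∈ W, B w w' = 0 := by
    intro w hw w' hw'
    have h1 := hiso (w + w') (add_mem hw hw')
    rw [map_add B w w', LinearMap.add_apply, map_add, map_add, hiso w hw, hiso w' hw', hsym w' w] at h1
    have h2 : (2 : F) * B w w' = 0 := by linear_combination h1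
    rcases mul_eq_zero.1 h2 with h3 | h3
    · exact absurd h3 two_ne_zero
    · exact h3
  obtain ⟨Φ, hΦ⟩ : ∃ Φ : P →ₗ[F] Module.Dual F W, Φ = W.dualRestrict.comp B := ⟨_, rfl⟩
  have hΦs : Function.Surjective Φ := by
    rw [hΦ, LinearMap.coe_comp]
    exact (Subspace.dualRestrict_surjective (W := W)).comp hBs
  have hker : W ≤ LinearMap.ker Φ := by
    intro w hw
    rw [LinearMap.mem_ker, hΦ]
    ext w'
    exact hiso2 w hw w' w'.2
  have h1 := LinearMap.finrank_range_add_finrank_ker Φ
  have h3 : finrank F (Module.Dual F W) = finrank F W := Subspace.dual_finrank_eq (V := W)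
  rw [LinearMap.range_eq_top.2 hΦs, finrank_top, h3, hrank] at h1
  have h2 := Submodule.finrank_mono hker
  omega

theorem t_gen : St_gen := by
  classical
  intro F N I _ _ _ _ c halg U hc hle f hf v hv
  obtain ⟨b⟩ : Nonempty (Module.Basis (Fin (finrank F U)) F U) := ⟨Module.finBasis F U⟩
  -- the coordinates
  obtain ⟨z, hz⟩ : ∃ z : Fin (finrank F U) → N, ∀ i, c i = ∑ j, z j * algebraMap F N ((b j : I → F) i) := by
    have h1 : c ∈ Submodule.span N (Set.range fun (j : Fin (finrank F U)) (i : I) =>
        algebraMap F N ((b j : I → F) i)) := by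
      refine Submodule.span_le.2 ?_ hc
      rintro _ ⟨w, hw, rfl⟩
      have h2 := b.sum_repr ⟨w, hw⟩
      have h3 : w = ∑ j, b.repr ⟨w, hw⟩ j • (b j : I → F) := by
        have h := congrArg (Subtype.val) h2
        rw [AddSubmonoidClass.coe_finsetSum] at h
        exact h.symm
      have h4 : (fun i => algebraMap F N (w i)) = ∑ j, algebraMap F N (b.repr ⟨w, hw⟩ j) •
          (fun i => algebraMap F N ((b j : I → F) i)) := by
        funext i
        have h5 := congrFun h3 i
        rw [h5]
        simp [Finset.sum_apply, Algebra.smul_def]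
      simp only [SetLike.mem_coe]
      rw [h4]
      exact Submodule.sum_mem _ fun j _ => Submodule.smul_mem _ _ (Submodule.subset_span ⟨j, rfl⟩)
    rw [Submodule.mem_span_range_iff_exists_fun] at h1
    obtain ⟨z, hz⟩ := h1
    refine ⟨z, fun i => ?_⟩
    rw [← hz]
    simp [Finset.sum_apply]
  have hsub : IntermediateField.adjoin F (Set.range c) ≤ IntermediateField.adjoin F (Set.range z) := by
    rw [IntermediateField.adjoin_le_iff]
    rintro _ ⟨i, rfl⟩
    rw [hz]
    refine sum_mem fun j _ => mul_mem ?_ ?_
    · exact IntermediateField.subset_adjoin _ _ ⟨j, rfl⟩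
    · exact IntermediateField.algebraMap_mem _ _
  have halg2 : Algebra.IsAlgebraic (IntermediateField.adjoin F (Set.range z)) N := by
    refine ⟨fun x => ?_⟩
    obtain ⟨p, hp, hp2⟩ := halg.isAlgebraic x
    refine ⟨p.map (IntermediateField.inclusion hsub : _ →+* _), ?_, ?_⟩
    · exact (Polynomial.map_ne_zero_iff (RingHom.injective _)).2 hp
    · rw [Polynomial.aeval_def, Polynomial.eval₂_map]
      exact hp2
  have halg3 : Algebra.IsAlgebraic (Algebra.adjoin F (Set.range z)) N := by
    rw [← IntermediateField.isAlgebraic_adjoin_iff_top]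
    exact halg2
  have hind : AlgebraicIndependent F z := by
    refine (Algebra.IsAlgebraic.isTranscendenceBasis_of_le_trdeg_of_finite F z ?_).1
    rw [Cardinal.mk_fin]
    exact hle
  obtain ⟨f', hf'⟩ : ∃ f' : MvPolynomial (Fin (finrank F U)) F, f' =
      MvPolynomial.aeval (fun i => ∑ j, MvPolynomial.X j * MvPolynomial.C ((b j : I → F) i)) f :=
    ⟨_, rfl⟩
  have h0 : f' = 0 := by
    apply (injective_iff_map_eq_zero _).1 hind
    change MvPolynomial.aeval z f' = 0
    rw [hf', MvPolynomial.comp_aeval_apply, ← hf]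
    congr 2
    funext i
    rw [map_sum, hz]
    apply Finset.sum_congr rfl
    intro j _
    rw [map_mul, MvPolynomial.aeval_X, MvPolynomial.aeval_C]
  have h1 : MvPolynomial.aeval (b.repr ⟨v, hv⟩ : Fin (finrank F U) → F) f' =
      MvPolynomial.aeval v f := by
    rw [hf', MvPolynomial.comp_aeval_apply]
    congr 2
    funext i
    rw [map_sum]
    have h := congrArg (Subtype.val) (b.sum_repr ⟨v, hv⟩)
    rw [AddSubmonoidClass.coe_finsetSum] at h
    have h5 := congrFun h i
    rw [Finset.sum_apply] at h5
    refine Eq.trans ?_ h5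
    apply Finset.sum_congr rfl
    intro j _
    rw [map_mul, MvPolynomial.aeval_X, MvPolynomial.aeval_C]
    rfl
  rw [h0, map_zero, MvPolynomial.aeval_eq_eval] at h1
  exact h1.symm

end Pool.Agent.Y203.J
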